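import Pool.Agent.Work.MP_63853a_lc.HF.Final

set_option autoImplicit false

/-!
# The Tutte polynomial in the positive quadrant on graphs with one forbidden induced subgraph

Let `x, y > 1` with `q = (x - 1) (y - 1) ≥ 1` and let `H` be a finite simple graph. A graph `φ : E → V × V` (loops and
parallel edges are allowed) is `H`-free (`Free H φ`) if its underlying simple graph has no induced subgraph `H`.

(i) `H` a linear forest (a forest with all degrees at most 2): contract the strong components of `φ` at level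
`κ = (2 / ln (x / (x - 1))) ln |V|` (the maximal `κ`-edge-connected subgraphs). The contraction `quo φ c` has an edge
tree of width `O(log (|V| + |E|))`, and for every edge tree of width `O(log (|V| + |E|))` the tree sampler with
`N ≥ (|V| + |E| + 2) ^ C / ε ^ 2` sets at every node approximates `T(G; x, y)` within the factor `1 ± ε` with
probability at least `3 / 4`.

(ii) `H` has a cycle: for every graph `φ` and `0 < δ ≤ 1` there are `a`, `m` such that the bundle graph `gadA φ a m`
(every edge is replaced by `m` paths with `a` inner vertices) is simple, `H`-free, of size polynomial in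
`(|V| + |E| + 1) / δ`, and `T(G; x, y)` is, within the factor `1 ± δ`, an explicit factor `scA` times its Tutte
polynomial.

(iii) `H` a forest with a vertex of degree at least 3: the same for the clique graph `gadB φ M α` (every vertex is
replaced by a clique with `M` vertices) and the factor `scB`.

So `T(G; x, y)` on `H`-free graphs is as hard to approximate as on all graphs if `H` is not a linear forest, and the
tree sampler is a fully polynomial randomised approximation scheme if `H` is a linear forest.
-/

namespace Pool.Agent.Results.MP_63853a_lc.InducedSubgraphDichotomy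

open Finset Pool.Agent.Work.MP_63853a_lc Pool.Agent.Work.MP_63853a_lc.Tr Pool.Agent.Work.MP_63853a_lc.HF

theorem result (x y : ℝ) (hx : 1 < x) (hy : 1 < y) (hq : 1 ≤ (x - 1) * (y - 1)) (h : ℕ) (H : SimpleGraph (Fin h)) :
    (H.IsAcyclic → (∀ v, (H.neighborSet v).ncard ≤ 2) →
      ∃ b : ℝ, ∀ β : ℝ, ∃ C : ℝ, ∀ (V E : Type) [Fintype V] [Fintype E] (φ : E → V × V) (c : V → V),
        Free H φ → (∀ u v, c u = c v ↔ SC φ (2 / Real.log (x / (x - 1)) * Real.log (Fintype.card V)) u v) →
        (∃ t : ETree E, t.Nodup ∧ t.edges = univ ∧ t.size ≤ 2 * Fintype.card E + 1 ∧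
          ∀ S ∈ t.sets, (lam (quo φ c) S : ℝ) ≤ b * Real.log (Fintype.card V + Fintype.card E + 2 : ℕ)) ∧
        ∀ t : ETree E, t.Nodup → t.edges = univ → t.size ≤ 2 * Fintype.card E + 1 →
          (∀ S ∈ t.sets, (lam (quo φ c) S : ℝ) ≤ β * Real.log (Fintype.card V + Fintype.card E + 2 : ℕ)) →
          ∀ ε : ℝ, 0 < ε → ε ≤ 1 →
            ∀ N : ℕ, ((Fintype.card V + Fintype.card E + 2 : ℕ) : ℝ) ^ C / ε ^ 2 ≤ N →
              3 / 4 ≤ tgood φ (quo φ c) x y (fun _ => y - 1) t ε N) ∧
    (¬ H.IsAcyclic →
      ∃ C : ℕ, ∀ (V E : Type) [Fintype V] [Fintype E] (φ : E → V × V) (δ : ℝ), 0 < δ → δ ≤ 1 →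
        ∃ a m : ℕ,
          ((Fintype.card (VA V E a m) + Fintype.card (EA E a m) : ℕ) : ℝ) ≤
            C * ((Fintype.card V + Fintype.card E + 1 : ℕ) / δ) ^ C ∧
          Simp (gadA φ a m) ∧ Free H (gadA φ a m) ∧
          |scA φ x y a m * tutte (gadA φ a m) x y - tutte φ x y| ≤ δ * tutte φ x y) ∧
    (H.IsAcyclic → (∃ v, 3 ≤ (H.neighborSet v).ncard) →
      ∃ C : ℕ, ∀ (V E : Type) [Fintype V] [Fintype E] (φ : E → V × V) (δ : ℝ), 0 < δ → δ ≤ 1 →
        ∃ (M : ℕ) (α : E ⊕ E → Fin M), Function.Injective α ∧
          ((Fintype.card (V × Fin M) + Fintype.card (EB φ M) : ℕ) : ℝ) ≤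
            C * ((Fintype.card V + Fintype.card E + 1 : ℕ) / δ) ^ C ∧
          Simp (gadB φ M α) ∧ Free H (gadB φ M α) ∧
          |scB φ x y M α * tutte (gadB φ M α) x y - tutte φ x y| ≤ δ * tutte φ x y) :=
  (final x y hx hy hq).1 h H

end Pool.Agent.Results.MP_63853a_lc.InducedSubgraphDichotomy
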