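import Pool.Agent.Work.MP_63853a_lc.PosMain
import Pool.Agent.Work.MP_63853a_lc.NegMain

set_option autoImplicit false

/-!
# The exact constant in Karger's condition for the Tutte polynomial

Let `x, y > 1` with `q = (x - 1) (y - 1) ≥ 1`. Part (i): on graphs with `n` vertices and edge connectivity at least
`(2 / log y) log n`, more generally with at most `β log n` classes of this connectivity, the mean of `n ^ C / ε ^ 2`
independent samples of the crude estimator is a good approximation. Part (ii): for every `α < 2 / log y` every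
graph `G` is turned by an explicit gadget of polynomial size into a graph `H` of edge connectivity at least
`α log |V(H)|` such that `T(G; x, y)` is, up to a factor between `1` and `1 + δ`, an explicit multiple of
`T(H; x, y)`.
-/

namespace Pool.Agent.Results.MP_63853a_lc.KargerThreshold

open Pool.Agent.Work.MP_63853a_lc

theorem result (x y : ℝ) (hx : 1 < x) (hy : 1 < y) (hq : 1 ≤ (x - 1) * (y - 1)) :
    (∀ β : ℝ, ∃ C : ℝ, ∀ (V E : Type) [Fintype V] [Fintype E] (φ : E → V × V) (m : ℕ),
      2 ≤ Fintype.card V → (m : ℝ) ≤ β * Real.log (Fintype.card V) →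
      Classes φ (2 / Real.log y * Real.log (Fintype.card V)) m →
      ∀ ε : ℝ, 0 < ε → ∀ N : ℕ, (Fintype.card V : ℝ) ^ C / ε ^ 2 ≤ N → 3 / 4 ≤ success φ x y ε N) ∧
    (∀ α : ℝ, α < 2 / Real.log y → ∃ C : ℕ, ∀ (V E : Type) [Fintype V] [Nonempty V] [Fintype E]
      (φ : E → V × V) (δ : ℝ), 0 < δ → δ ≤ 1 → ∃ a b m : ℕ,
        ((Fintype.card (HV V E a b) + Fintype.card (HE V E a b m) : ℕ) : ℝ) ≤
          C * ((Fintype.card V + Fintype.card E : ℕ) / δ) ^ C ∧
        EConn (gad φ a b m) (α * Real.log (Fintype.card (HV V E a b))) ∧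
        tutte φ x y ≤ scale φ x y a b m * tutte (gad φ a b m) x y ∧
        scale φ x y a b m * tutte (gad φ a b m) x y ≤ (1 + δ) * tutte φ x y) :=
  ⟨fun β => pos_main x y hx hy hq β, fun α hα => neg_main x y hx hy hq α hα⟩

end Pool.Agent.Results.MP_63853a_lc.KargerThreshold
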