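import Pool.Agent.Work.MP_63853a_lc.DegMain

set_option autoImplicit false

/-!
# The Tutte polynomial of graphs with minimum degree at least `α n / log n`

`tutte φ x y` is the Tutte polynomial of the graph `φ : E → V × V`, `success φ x y ε N` the probability that the mean
of the crude estimator over `N` independent random edge sets differs from `tutte φ x y` by at most a fraction `ε`.
-/

namespace Pool.Agent.Results.MP_63853a_lc.LogDense

open Pool.Agent.Work.MP_63853a_lc

theorem result (x y : ℝ) (hx : 1 < x) (hy : 1 < y) (hq : 1 ≤ (x - 1) * (y - 1)) (α : ℝ) (hα : 0 < α) :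
    ∃ C : ℝ, ∀ (V E : Type) [Fintype V] [Fintype E] (φ : E → V × V), 2 ≤ Fintype.card V →
      (∀ u v : V, Set.ncard {e : E | φ e = (u, v) ∨ φ e = (v, u)} ≤ 1) →
      (∀ v : V, α * Fintype.card V / Real.log (Fintype.card V) ≤
        Set.ncard {e : E | (φ e).1 = v ∨ (φ e).2 = v}) →
      ∀ ε : ℝ, 0 < ε → ∀ N : ℕ, (Fintype.card V : ℝ) ^ C / ε ^ 2 ≤ N → 3 / 4 ≤ success φ x y ε N :=
  deg_main x y hx hy hq α hα

end Pool.Agent.Results.MP_63853a_lc.LogDense
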