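import Pool.Agent.Work.MP_63853a_lc.Tr.G.MainG
import Pool.Agent.Work.MP_63853a_lc.Tr.G.GII
import Pool.Agent.Work.MP_63853a_lc.Tr.G.GIII
import Pool.Agent.Work.MP_63853a_lc.Tr.G.GIV
import Pool.Agent.Work.MP_63853a_lc.Tr.G.GV

set_option autoImplicit false

/-!
# The tree sampler for the Tutte polynomial

Let `x, y > 1` with `q = (x - 1) (y - 1) ≥ 1`. The tree sampler (`trun`, `tgood`) for a reference graph `ψ` with edge
weights `u` approximates `T(G; x, y)` within the factor `1 ± ε`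

(i) with `N ≥ 8 |t| q ^ w χ / ε ^ 2` sets at every node of its tree `t`, where `w` is the width of the tree for the
reference graph and `χ` is one plus the chi-square divergence of the random cluster measure of `G` from the one of the
reference graph;

(ii) with `N ≥ s ^ C / ε ^ 2` on all graphs of bounded clique-width (bounded number of labels in a tree of the vertices);

(iii) with `N ≥ s ^ C / ε ^ 2` on all graphs with a tree of the edges whose separators have bounded independence number;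

(iv) with `N ≥ s ^ C / ε ^ 2` if the vertices are the union of classes which induce `(2 / ln (x / (x - 1))) ln n`-edge
connected subgraphs such that the contraction of the classes gives a graph of width `O(log s)`;

(v) with `N ≥ C |t| / ε ^ 2` on all graphs of girth at least `C ln n`.
-/

namespace Pool.Agent.Results.MP_63853a_lc.TreeSampler

open Finset Pool.Agent.Work.MP_63853a_lc Pool.Agent.Work.MP_63853a_lc.Tr

theorem result (x y : ℝ) (hx : 1 < x) (hy : 1 < y) (hq : 1 ≤ (x - 1) * (y - 1)) :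
    (∀ (V W E : Type) [Fintype V] [Fintype W] [Fintype E] (φ : E → V × V) (ψ : E → W × W) (u : E → ℝ)
      (t : ETree E) (w : ℕ) (ε : ℝ) (N : ℕ), (∀ e, 0 < u e) → t.Nodup → t.edges = univ →
      (∀ S ∈ t.sets, lam ψ S ≤ w) → 0 < ε → ε ≤ 1 →
      8 * t.size * ((x - 1) * (y - 1)) ^ w * chi φ ψ x y u / ε ^ 2 ≤ N → 3 / 4 ≤ tgood φ ψ x y u t ε N) ∧
    (∀ k : ℕ, ∃ b C : ℝ, ∀ (V E : Type) [Fintype V] [Fintype E] (φ : E → V × V) (T : VTree V),
      T.Nodup → T.verts = univ → (∀ X ∈ T.sets, Set.ncard (out φ X '' (X : Set V)) ≤ k) →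
      ∀ κ : ℕ, κ = ⌈b * Real.log (2 * (Fintype.card V + Fintype.card E + 1) : ℕ)⌉₊ →
      ∃ c : V → V, (∀ u v, c u = c v ↔ Relation.EqvGen (Gen φ κ T) u v) ∧ ∀ ε : ℝ, 0 < ε → ε ≤ 1 →
        ∀ N : ℕ, ((2 * (Fintype.card V + Fintype.card E + 1) : ℕ) : ℝ) ^ C / ε ^ 2 ≤ N →
          3 / 4 ≤ tgood φ (quo φ c) x y (fun _ => y - 1) (builds φ c κ T) ε N) ∧
    (∀ k : ℕ, ∃ b C : ℝ, ∀ (V E : Type) [Fintype V] [Fintype E] (φ : E → V × V) (t : ETree E),
      t.Nodup → t.edges = univ → (∀ S ∈ t.sets, Ind φ k (mid φ S)) →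
      ∀ κ : ℕ, κ = ⌈b * Real.log (Fintype.card V + Fintype.card E + t.size + 1 : ℕ)⌉₊ →
      ∃ c : V → V, (∀ u v, c u = c v ↔ Relation.EqvGen (Close φ κ) u v) ∧ ∀ ε : ℝ, 0 < ε → ε ≤ 1 →
        ∀ N : ℕ, ((Fintype.card V + Fintype.card E + t.size + 1 : ℕ) : ℝ) ^ C / ε ^ 2 ≤ N →
          3 / 4 ≤ tgood φ (quo φ c) x y (fun _ => y - 1) t ε N) ∧
    (∀ β : ℝ, ∃ C : ℝ, ∀ (V E : Type) [Fintype V] [Fintype E] (φ : E → V × V) (c : V → V) (t : ETree E),
      Strong φ c (2 / Real.log (x / (x - 1)) * Real.log (Fintype.card V)) → t.Nodup → t.edges = univ →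
      (∀ S ∈ t.sets, (lam (quo φ c) S : ℝ) ≤ β * Real.log (Fintype.card V + Fintype.card E + t.size + 1 : ℕ)) →
      ∀ ε : ℝ, 0 < ε → ε ≤ 1 →
        ∀ N : ℕ, ((Fintype.card V + Fintype.card E + t.size + 1 : ℕ) : ℝ) ^ C / ε ^ 2 ≤ N →
          3 / 4 ≤ tgood φ (quo φ c) x y (fun _ => y - 1) t ε N) ∧
    ∃ C : ℝ, ∀ (V E : Type) [Fintype V] [Fintype E] (φ : E → V × V) (t : ETree E), 2 ≤ Fintype.card V →
      Girth φ (C * Real.log (Fintype.card V)) → t.Nodup → t.edges = univ → ∀ ε : ℝ, 0 < ε → ε ≤ 1 →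
        ∀ N : ℕ, C * t.size / ε ^ 2 ≤ N →
          3 / 4 ≤ tgood φ (fun _ => (((), ()) : Unit × Unit)) x y (fun _ => 1 / (x - 1)) t ε N :=
  ⟨fun V W E _ _ _ φ ψ u t w ε N hu ht htu hw hε hε1 hN =>
      main_gen φ ψ hx hy hq hu t ht htu hw hε hε1 N hN,
    fun k => g_two x y hx hy hq k, fun k => g_three x y hx hy hq k, fun β => g_four x y hx hy hq β,
    g_five x y hx hy hq⟩

end Pool.Agent.Results.MP_63853a_lc.TreeSampler
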